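import Pool.Agent.H5.EG.Spec

/-!
# MP_98cfca_co, Q1: statements of the lemmas, second part
-/

set_option autoImplicit false

namespace Pool.Agent.H5.EG

open PowerSeries

/-- The Wronskian determinant of the functions `F i` divided by their product. -/
noncomputable def Dl {b : ℕ} (F : Fin b → Fn) : PowerSeries ℤ :=
  (Matrix.of fun i (l : Fin b) => G (gg (F i).s) l).det

/-- **core1.** From `S_pivot` and `S_cramer`. Proof. Apply `S_pivot` to `v i = (F i).f`; put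
`M = |det (coeff (p l) (F i).f)|`, `ν = ∑ p i ≤ b X`. By `D_iter_eq` `D^l f_i = G (gg s_i) l * f_i`, so
`det (D^l f_i) = (∏ f_i) * Dl F` (`Matrix.det_mul_column` / `det_mul_row`), and `∏ f_i` has constant
term `1`; so the terms of `Dl F` below `ν` vanish and the coefficient of index `ν` is `± M V`, at least
`M` in absolute value. The claims on `c` are `S_cramer` for the matrix `coeff (p l) (F i).f` and
`w l = coeff (p l) W` (`p l < X`). -/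
def S_core1 : Prop :=
  ∀ (b X : ℕ) (F : Fin b → Fn),
    (∀ d : Fin b → ℂ, (∀ k < X, ∑ i, d i * cf (F i).f k = 0) → ∀ i, d i = 0) →
    ∃ (ν : ℕ) (M : ℝ), ν ≤ b * X ∧ 1 ≤ M ∧ (∀ k < ν, PowerSeries.coeff k (Dl F) = 0) ∧
      M ≤ |((PowerSeries.coeff ν (Dl F) : ℤ) : ℝ)| ∧
      ∀ (W : PowerSeries ℤ) (c : Fin b → ℂ) (K : ℝ), 1 ≤ K →
        (∀ k < X, cf W k = ∑ i, c i * cf (F i).f k) → (∀ i, ∀ k < X, ‖cf (F i).f k‖ ≤ K) →
        (∀ k < X, ‖cf W k‖ ≤ K) →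
        ∀ i, (c i ≠ 0 → 1 / M ≤ ‖c i‖) ∧ ‖c i‖ ≤ b.factorial * K ^ b

/-- **core2.** Bounds at the scale `X` from bounds at the outer scale `S`, from `S_fcoef`, `S_Gbound`,
`S_maj`, `S_cauchy`.
Proof. Put `τ = Λ² log S`, `R = 1 - 1/S`. As `S ≤ X^K` and `X ≥ Λ^4`, `Λ ≥ Λ₀(K)`: `τ ≤ X`.
First part: `S_fcoef` with `ρ = 1 - 1/X` (`R - ρ ≥ 1/(2X)`): `|f_n| ρ^n ≤ exp (4 X τ) ≤ exp (4 X²)` and
`ρ^(-n) ≤ 4` for `n ≤ X`. Second: `S_fcoef` with `ρ = 1 - 1/(2X²)` (`R - ρ ≥ 1/(4X²)`):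
`exp (8 X² τ) ≤ exp (8 X³)`.  Third: `S_fcoef` (1) and `S_Gbound` with `τ`, `R`: `Maj ((1+2τ)^l) (2l) R`;
then `S_maj` (2) with `ρ = 1 - 1/X²`, `1 - ρ/R ≥ R - ρ ≥ 1/(2X²)`:
`(1+2τ)^l (2l)! (2X²)^(2l+1) ≤ X^κ` with `κ` depending on `B`.  (`Rad` for `G`: `Rad.D`, `Rad.mul`,
`Rad.add`, and `Rad (toC (gg s))` as `s` is bounded.)  For `W`: `S_cauchy` with `ρ = 1 - 1/X`
(`Growth` for `S = X`) and with `ρ = 1 - 1/(2X²)` (`Growth` for `S = 2X²`); `4 X^Λ ≤ exp (5X²)`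
and `(2X²)^Λ ≤ exp (8X³)` since `Λ ≤ X`. -/
def S_core2 : Prop :=
  ∀ B K : ℕ, ∃ Λ₀ κ : ℕ, ∀ Λ ≥ Λ₀, ∀ (X : ℕ) (S : ℝ), Λ ^ 4 ≤ X → (X : ℝ) ^ 6 ≤ S →
    S ≤ (X : ℝ) ^ K →
    (∀ F : Fn, mn F.s (1 - 1 / S) ≤ (Λ : ℝ) ^ 2 * Real.log S →
      (∀ k < X, ‖cf F.f k‖ ≤ Real.exp (5 * (X : ℝ) ^ 2)) ∧
      (∀ k, ‖cf F.f k‖ * (1 - 1 / (2 * (X : ℝ) ^ 2)) ^ k ≤ Real.exp (8 * (X : ℝ) ^ 3)) ∧
      ∀ l ≤ B, Rad (G (toC (gg F.s)) l) ∧
        ∀ x : ℂ, ‖x‖ ≤ 1 - 1 / (X : ℝ) ^ 2 → ‖ev (G (toC (gg F.s)) l) x‖ ≤ (X : ℝ) ^ κ) ∧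
    ∀ W : PowerSeries ℤ, Growth W Λ →
      (∀ k < X, ‖cf W k‖ ≤ Real.exp (5 * (X : ℝ) ^ 2)) ∧
      ∀ k, ‖cf W k‖ * (1 - 1 / (2 * (X : ℝ) ^ 2)) ^ k ≤ Real.exp (8 * (X : ℝ) ^ 3)

/-- **core.** One scale.  `X` is the scale of independence, `S` the outer scale.
To be proved from `S_core1`, `S_core2` (applied with `B + 1`), `S_tiny`, `S_Wsup`, `S_jensen`,
`S_cartan`, `S_exp`, `S_fourier`; the items (1), (2), (4) and the first half of (5) are `S_core1`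
and `S_core2`.
Assume that `Λ ≥ Λ₀(B, K)` and put `τ = Λ² log S`, `R = 1 - 1/S`, `ρ = 1 - 1/X²`, `R₁ = 1 - 1/(2X²)`,
`ρ₁ = 1 - 1/X`. As `S ≤ X^K` and `X ≥ Λ^4` we have `τ ≤ X` (for `Λ ≥ Λ₀`).
(1) `S_fcoef` (with `R`, and `ρ₁` resp. `R₁`): `|s_i n| R^n ≤ 2 n τ`;
`|f_{i,n}| ρ₁^n ≤ exp (2 τ ρ₁/(R - ρ₁)) ≤ exp (4 X τ) ≤ exp (4 X²)`, so `|f_{i,n}| ≤ exp (5 X²)` for `n < X`
(`ρ₁^(-n) ≤ 4` for `n ≤ X`); and `|f_{i,n}| R₁^n ≤ exp (8 X² τ) ≤ exp (8 X³)` (as `R - R₁ ≥ 1/(4X²)`).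
`|W_n| ρ₁^n ≤ X^Λ` and `|W_n| R₁^n ≤ (2X²)^Λ` by `S_cauchy`, `Growth`; so `|W_n| ≤ exp (5X²)` for `n < X`.
(2) `S_pivot` gives `p`, `V` and `M = det (coeff (p l) f_i) ≠ 0`; `S_cramer` with the columns `p l < X`:
`‖c i‖ ≥ 1/|M|` and `‖c i‖ ≤ b! exp (5 b X²) ≤ exp (X³)`.
(3) `E = W - ∑ c i f_i` has no terms below `x^(X^6)`, and `|E_n| R₁^n ≤ exp (κ X³)` with `κ = κ(B)`.
By `S_tiny`: `|D^l E| ≤ 1` on `|x| ≤ ρ`, `l ≤ B`.  By `S_Wsup`: `|D^l W| ≤ X^(5Λ)` there.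
(4) Let `g_i = toC (gg s_i)`, `G_{i,l} = G g_i l`. `S_Gbound` (with `τ`, `R`) and `S_maj` (2):
`|G_{i,l}(x)| ≤ (1+2τ)^l (2l)! (1 - ρ/R)^(-2l-1) ≤ X^(κ)` on `|x| ≤ ρ` with `κ = κ(B)`
(`1 - ρ/R ≥ 1/(2X²)` since `R - ρ ≥ 1/(2 X²)`; `1 + 2 τ ≤ 3 X`).
(5) `Δ = det (G_{i,l})_{i,l<b}` (in `ℤ⟦X⟧`, then `toC`).  As `D^l f_i = G_{i,l} f_i`
(`D_iter_eq`), `det (D^l f_i) = (∏ f_i) Δ` and `∏ f_i` has constant term `1`; so by `S_pivot` `Δ` has no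
terms below `ν = ∑ p_i ≤ b X` and leading coefficient `M V`.  `S_jensen` and `|M V| ≥ |M|`,
`ν log (1/ρ) ≤ b X · 2/X² ≤ 1` give `mean log |Δ| ≥ log |M| - 1`.
(6) For `|x| = ρ` and all `l < b`: `D^l (W - E) (x) = ∑ c i f_i(x) G_{i,l}(x)`, so (Cramer)
`c i f_i(x) Δ(x)` is the determinant with row `i` replaced by `D^l (W-E)(x)`; it is at most
`P := b! (X^(5Λ) + 1) X^(κ b) ≤ X^(7Λ)`, and `|Δ| ≤ b! X^(κ b) ≤ X^Λ =: Q`.
(7) `S_cartan` with `u_i x = Re (ev (phi s_i) x)` (`|f_i x| = exp (u_i x)` by `S_exp`, mean `0` by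
`S_fourier` (2), `∑ c i = 1` from the coefficient `k = 0`): `mn s_i ρ ≤ 8·7Λ log X + 4Λ log X + 8 + 2 log b
≤ 2 Λ² log X = Λ² log (X²)` for `Λ ≥ Λ₀`. -/
def S_core : Prop :=
  ∀ B K : ℕ, ∃ Λ₀ : ℕ, ∀ Λ ≥ Λ₀, ∀ (b : ℕ) (F : Fin b → Fn) (W : PowerSeries ℤ) (c : Fin b → ℂ)
    (X : ℕ) (S : ℝ), 1 ≤ b → b ≤ B → PowerSeries.constantCoeff W = 1 → Growth W Λ → Λ ^ 4 ≤ X →
    (X : ℝ) ^ 6 ≤ S → S ≤ (X : ℝ) ^ K → (∀ i, c i ≠ 0) →
    (∀ k < X ^ 6, cf W k = ∑ i, c i * cf (F i).f k) →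
    (∀ d : Fin b → ℂ, (∀ k < X, ∑ i, d i * cf (F i).f k = 0) → ∀ i, d i = 0) →
    (∀ i, mn (F i).s (1 - 1 / S) ≤ (Λ : ℝ) ^ 2 * Real.log S) →
    ∀ i, mn (F i).s (1 - 1 / (X : ℝ) ^ 2) ≤ (Λ : ℝ) ^ 2 * Real.log ((X : ℝ) ^ 2)

/-- Independence and representation for the functions `F t`. -/
def IndF {B : ℕ} (F : Fin B → Fn) (T : Finset (Fin B)) (n : ℕ) : Prop :=
  Ind (fun t k => cf (F t).f k) T n

/-- Independence and representation for the functions `F t`. -/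
def RepF {B : ℕ} (F : Fin B → Fn) (W : PowerSeries ℤ) (T : Finset (Fin B)) (n : ℕ) : Prop :=
  Rep (fun t k => cf (F t).f k) (cf W) T n

/-- **step.** From `S_gap` with `n j = n₀^(6^j)` (`n (B+1) ≤ ⌊S⌋`) and `S_core` for
`X = n₀^(6^i)`, `K = 2·(6^(B+1))²` (so `S ≤ n₀^K ≤ X^K`, `X^6 = n (i+1) ≤ n (B+1) ≤ S`), after
reindexing `T'` by `Fin b`, `b = T'.card ≤ B`; `b ≥ 1` because `W` has constant term `1`. -/
def S_step : Prop :=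
  ∀ B : ℕ, ∃ Λ₀ : ℕ, ∀ Λ ≥ Λ₀, ∀ (F : Fin B → Fn) (W : PowerSeries ℤ) (T : Finset (Fin B))
    (n₀ : ℕ) (S : ℝ), PowerSeries.constantCoeff W = 1 → Growth W Λ → Λ ^ 4 ≤ n₀ →
    (n₀ : ℝ) ^ (6 ^ (B + 1)) ≤ S → S ≤ (n₀ : ℝ) ^ (2 * (6 ^ (B + 1)) ^ 2) →
    RepF F W T ⌊S⌋₊ → (∀ t ∈ T, mn (F t).s (1 - 1 / S) ≤ (Λ : ℝ) ^ 2 * Real.log S) →
    ∃ X : ℕ, n₀ ≤ X ∧ X ≤ n₀ ^ (6 ^ B) ∧ ∃ T' ⊆ T, IndF F T' X ∧ RepF F W T' (X ^ 6) ∧
      ∀ t ∈ T', mn (F t).s (1 - 1 / (X : ℝ) ^ 2) ≤ (Λ : ℝ) ^ 2 * Real.log ((X : ℝ) ^ 2)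

/-- **A.** The main analytic theorem, from `S_step` and `S_fcoef`.
Proof. Let `M = 6^(B+1)`, `s k = Λ^(4 M^k)`. Claim `P k` (`k ≥ 1`): there are `T` and a real `S` with
`s k ≤ S ≤ (s k)^(2M)`, `RepF F W T ⌊S⌋`, `mn (F t).s (1-1/S) ≤ Λ² log S` for `t ∈ T`.  `P k` holds for all
large `k` with `T = univ`, `S = s k`, since the means are bounded (`Fn.ch`) and `log (s k) → ∞`
(`Λ ≥ 2`).  `P (k+1)` implies `P k`: apply `S_step` with `n₀ = s k` (`S ≥ s (k+1) = n₀^M`,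
`S ≤ (s (k+1))^(2M) = n₀^(2M²)`) and put `S' = X²` (`s k ≤ X² ≤ (s k)^(2·6^B) ≤ (s k)^(2M)`,
`⌊X²⌋ ≤ X^6`). Finally apply `S_step` to `P 1` with `n₀ = s 0 = Λ^4`: `Λ^4 ≤ X ≤ Λ^(4·6^B)`.
The bound for `s n`: `S_fcoef` (1) with `R = 1 - 1/X²`, `τ = Λ² log (X²)`; for `n ≤ X²`
`R^(-n) ≤ 4`, so `|s n| ≤ 8 n Λ² log (X²) ≤ X^4` (as `Λ² ≤ X^(1/2)`). -/
def S_A : Prop :=
  ∀ B : ℕ, ∃ Λ₀ : ℕ, ∀ Λ ≥ Λ₀, ∀ (F : Fin B → Fn) (W : PowerSeries ℤ),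
    PowerSeries.constantCoeff W = 1 → Growth W Λ →
    (∃ c : Fin B → ℂ, ∀ k, cf W k = ∑ t, c t * cf (F t).f k) →
    ∃ (T : Finset (Fin B)) (X : ℕ), Λ ^ 4 ≤ X ∧ X ≤ Λ ^ (4 * 6 ^ B) ∧ IndF F T X ∧
      RepF F W T (X ^ 6) ∧ ∀ t ∈ T, ∀ n ≤ X ^ 2, |(F t).s n| ≤ (X : ℤ) ^ 4

/-- **op.** The differential operator with solutions `f_t`, `t ∈ T`.
Proof. Let `b = T.card ≤ B`, index `T` by `Fin b`, `G_{t,l} = G (gg s_t) l ∈ ℤ⟦X⟧`. For `i ≤ b` let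
`A i` be `(-1)^i` times the determinant of the `b × b` matrix obtained from `(G_{t,l})_{t<b, l≤b}` by
deleting the column `i`, `A i = 0` for `b < i ≤ B`. Then `∑ A i h_i = det` of the matrix with first
row `(h_0..h_b)` followed by the rows `G_t`; so `∑ A i G_{t,i} = 0`, and `∑ A i D^i f_t = 0`
by `D_iter_eq`.  If `W - ∑ c_t f_t = E = O(x^(X^6))` (over `ℂ`) then `∑ A i D^i W = ∑ A i D^i E
= O(x^(X^6))`: the last claim. `A b = ± det (G_{t,l})_{l<b}` is not `0` and has a nonzero coefficient of index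
`≤ b X` by `S_pivot` (as in `S_core` (5): `det (D^l f_t) = (∏ f_t) det (G_{t,l})`, constant term of
`∏ f_t` is `1`); let `m₀ ≤ b X` be the least order of the `A i`. Bounds: for `n ≤ X²` by induction on `l`
`|coeff n G_{t,l}| ≤ (1 + X^4)^l (n+1)^(2l)` (as in `S_Gbound`), then products and determinants of at
most `B` factors: at most `X^C` for `n ≤ X²`, `X ≥ 2` and a constant `C = C(B)`. -/
def S_op : Prop :=
  ∀ B : ℕ, ∃ C : ℕ, ∀ (F : Fin B → Fn) (W : PowerSeries ℤ) (T : Finset (Fin B)) (X : ℕ), 2 ≤ X →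
    IndF F T X → RepF F W T (X ^ 6) → (∀ t ∈ T, ∀ n ≤ X ^ 2, |(F t).s n| ≤ (X : ℤ) ^ 4) →
    ∃ (A : Fin (B + 1) → PowerSeries ℤ) (m₀ : ℕ), m₀ ≤ B * X ∧
      (∃ i, PowerSeries.coeff m₀ (A i) ≠ 0) ∧
      (∀ i, ∀ n < m₀, PowerSeries.coeff n (A i) = 0) ∧
      (∀ i, ∀ n ≤ X ^ 2, |PowerSeries.coeff n (A i)| ≤ (X : ℤ) ^ C) ∧
      ∀ n < X ^ 6, PowerSeries.coeff n (∑ i, A i * D^[(i : ℕ)] W) = 0

/-- The limits of the coefficients: `∑ FL m l z^l = 2^(-m) ∑_k C(m,k) exp (-2 k (m-k) z)`. -/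
noncomputable def FL (m l : ℕ) : ℝ :=
  (∑ k ∈ Finset.range (m + 1), (m.choose k : ℝ) * (-2 * (k * (m - k) : ℝ)) ^ l) / (2 ^ m * l.factorial)

/-- `V = (1 - x^r)/(1 + x^r)` and `2^m W = ∑_k C(m,k) V^(r k (m-k))`. -/
def IsW (m r : ℕ) (V W : PowerSeries ℤ) : Prop :=
  V * (1 + PowerSeries.X ^ r) = 1 - PowerSeries.X ^ r ∧
    (2 : PowerSeries ℤ) ^ m * W =
      ∑ k ∈ Finset.range (m + 1), (m.choose k : PowerSeries ℤ) * V ^ (r * (k * (m - k)))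

/-- **coef.** `W` is a power series in `y = x^r` and the coefficient of `y^l`, divided by `r^l`, tends
to `FL m l`. Proof. With `v = (1-y)/(1+y)` and `Y = v^N`: `(1 - y²) Y' = -2 N Y`, so
`(l+1) e_{l+1} = -2 N e_l + (l-1) e_{l-1}` for the coefficients `e_l` of `v^N`.  For `N = r λ`
the numbers `e_l / r^l` satisfy `(l+1) ê_{l+1} = -2 λ ê_l + (l-1) ê_{l-1}/r²`, so by induction on `l`
they tend to `(-2λ)^l/l!` as `r → ∞`. Sum over `k` with `λ = k (m-k)`. -/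
def S_coef : Prop :=
  (∀ (m r : ℕ) (V W : PowerSeries ℤ), 1 ≤ r → IsW m r V W →
    ∀ n, ¬ r ∣ n → PowerSeries.coeff n W = 0) ∧
  ∀ (m l : ℕ) (ε : ℝ), 0 < ε → ∃ r₀ : ℕ, ∀ r ≥ r₀, ∀ V W : PowerSeries ℤ, IsW m r V W →
    |((PowerSeries.coeff (r * l) W : ℤ) : ℝ) / (r : ℝ) ^ l - FL m l| ≤ ε

/-- **inj.** The function `F = ∑ FL m l z^l` is a linear combination with positive coefficients of
`exp (μ z)` for at least `B + 1` different `μ = -2 k (m-k)`, `0 ≤ k ≤ m/2`.  It satisfies no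
differential equation `∑_{i ≤ B, k ≤ K} a i k z^k (z d/dz)^i F = 0` with `a ≠ 0`.
Proof. `(z d/dz)^i exp (μ z) = p_i (μ z) exp (μ z)`, `p_i` monic of degree `i` (Touchard).  The functions
`exp (μ z)` are linearly independent over `ℝ[z]`, so `∑ a i k z^k p_i (μ z) = 0` for all the `μ`.
Each coefficient of `z^e` is a polynomial in `μ` of degree `≤ B` with more than `B` zeros:
`∑_i coeff_j (p_i) a i (e-j) = 0` for all `j ≤ B`, all `e`; this triangular system gives `a = 0`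
(descending induction on `i = j`). The hypothesis is: all coefficients (index `N`) vanish. -/
def S_inj : Prop :=
  ∀ (B m K : ℕ), 2 * B + 2 ≤ m → ∀ a : Fin (B + 1) → Fin (K + 1) → ℝ,
    (∀ N : ℕ, ∑ i : Fin (B + 1), ∑ k : Fin (K + 1),
      (if (k : ℕ) ≤ N then a i k * ((N - k : ℕ) : ℝ) ^ (i : ℕ) * FL m (N - k) else 0) = 0) →
    ∀ i k, a i k = 0

/-- **final.** From `S_coef` and `S_inj`: no operator with small coefficients kills `W`.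
Proof. Let `K = B + C + 1` and let `Λ a = (∑_{i,k} [k ≤ N] a i k (N-k)^i FL m (N-k))_{N}` for
`a : Fin (B+1) → Fin (K+1) → ℝ`. By `S_inj` it is injective, so (finite dimension) it is injective with
finitely many `N ≤ N₁`, and there is `c₀ > 0` with `max_{N ≤ N₁} |(Λ a)_N| ≥ c₀ max |a|`.
Suppose `A`, `m₀` are given for a large `r`. For `i ≤ B`, `k ≤ r` (so `m₀ + r k ≤ m₀ + r²`) put
`â i k = coeff (m₀ + r k) (A i) * r^i / r^k`; then `|â i k| ≤ r^(C + B - k)`, so `|â i k| ≤ 1/r` for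
`k > K`, while `|â i 0| ≥ 1` for some `i` (a nonzero integer times `r^i`).  The coefficient of
`x^(m₀ + r N)` (`N ≤ N₁ ≤ r`) of `∑ A i D^i W` is, since `W` has only terms `w_l x^(r l)` and `A i` has no terms
below `x^(m₀)`, equal to `∑_i ∑_{k + l = N} coeff (m₀ + r k) (A i) (r l)^i w_l`; divided by `r^N` it is
`∑_i ∑_{k+l=N} â i k l^i (w_l / r^l) = 0`. As `w_l/r^l → FL m l` for `l ≤ N₁`, the truncation of `â` to
`k ≤ K` satisfies `|(Λ â)_N| ≤ ε max |â| + C' / r` with `ε → 0`, `C'` depending on `B, m, N₁` only, a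
contradiction for large `r` because `max |â| ≥ 1`. -/
def S_final : Prop :=
  ∀ B m C : ℕ, 2 * B + 2 ≤ m → ∃ r₀ : ℕ, ∀ r ≥ r₀, ∀ V W : PowerSeries ℤ, IsW m r V W →
    ¬ ∃ (A : Fin (B + 1) → PowerSeries ℤ) (m₀ : ℕ),
      (∃ i, PowerSeries.coeff m₀ (A i) ≠ 0) ∧
      (∀ i, ∀ n < m₀, PowerSeries.coeff n (A i) = 0) ∧
      (∀ i, ∀ n ≤ m₀ + r ^ 2, |PowerSeries.coeff n (A i)| ≤ (r : ℤ) ^ C) ∧
      ∀ n ≤ m₀ + r ^ 2, PowerSeries.coeff n (∑ i, A i * D^[(i : ℕ)] W) = 0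

/-- **grow.** `W` has constant term `1` and the growth `S^(C r)`. Proof. `V = (1 - x^r) ∑ (-x^r)^j` has
bounded coefficients; for `|x| ≤ 1 - 1/S`: `|V x| = |1 - x^r|/|1 + x^r| ≤ 2/(1 - |x|) ≤ 2S`, so
`|W x| ≤ (2S)^(r m²) ≤ S^(2 r m²)`; take `C = 2m²`. -/
def S_grow : Prop :=
  ∀ m : ℕ, ∃ C : ℕ, ∀ (r : ℕ) (V W : PowerSeries ℤ), 1 ≤ r → IsW m r V W →
    PowerSeries.constantCoeff W = 1 ∧ Growth W (C * r)

/-- **prod.** Products of integer powers of `1 ± x^k` belong to `Fn`.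
Proof. `Fn` contains `1` (`s = 0`); it is closed under products (`s` adds, `ev` is multiplicative, means are
subadditive) and inverses (`-s`, the inverse of a power series with constant term `1`), and contains
`1 - x^k`, `k ≥ 1`: `s n = k` if `k ∣ n`, `n ≥ 1`, else `0`. Characteristic: `u = Re (ev (phi s) x)
= log |1 - x^k| ≤ log 2`, mean of `u` is `0` (`S_fourier` (2)), so the mean of `|u| = 2 u⁺ - u` is at
most `2 log 2`. (`|1 - x^k| = exp u` by `S_exp`.) And `1 + x^k = (1 - x^(2k)) / (1 - x^k)`. The value at a real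
`x ∈ (0,1)` by `ev_mul`. -/
def S_prod : Prop :=
  ∀ (K : Finset ℕ) (a b : ℕ → ℤ) (N : ℤ) (r : ℕ), 0 ∉ K → 1 ≤ r →
    ∃ F : Fn, ∀ x : ℝ, 0 < x → x < 1 → ev (toC F.f) (x : ℂ) =
      (((∏ k ∈ K, (1 + x ^ k) ^ (a k) * (1 - x ^ k) ^ (b k)) * (1 + x ^ r) ^ N : ℝ) : ℂ)

open Classical in
/-- `W α` is the sum of `X ^ |E(G)|` over the graphs `G` on the vertex set `V` all of whose degrees
are even and which satisfy `α(G) = G`. -/
noncomputable def W {V : Type} [Fintype V] (α : Equiv.Perm V) : Polynomial ℤ :=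
  ∑ G ∈ (Finset.univ : Finset (SimpleGraph V)).filter
    (fun G => (∀ v, Even (G.degree v)) ∧ ∀ u v, G.Adj (α u) (α v) ↔ G.Adj u v),
    Polynomial.X ^ G.edgeFinset.card

/-- The permutation with `m` cycles of length `r`. -/
def rot (m r : ℕ) : Equiv.Perm (Fin m × ZMod r) :=
  Equiv.prodCongr (Equiv.refl _) (Equiv.addRight 1)

/-- The even subgraphs of the multigraph on `Fin m` with `r` edges `(a, b, d)`, `d : Fin r`, between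
any two vertices `a < b`. -/
def evenSets (m r : ℕ) : Finset (Finset ((Fin m × Fin m) × Fin r)) :=
  (Finset.univ.filter fun e : (Fin m × Fin m) × Fin r => e.1.1 < e.1.2).powerset.filter
    fun S => ∀ a : Fin m, Even (S.filter fun e => e.1.1 = a ∨ e.1.2 = a).card

/-- **graphA.** The even graphs on `Fin m × ZMod r` fixed by `rot m r`, `r` odd.
Proof. Such a graph `G` is a union of orbits of pairs: for `a < b` and `d : ZMod r` the orbit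
`{(a, i), (b, i + d)}`, `i : ZMod r` (`r` pairs, one edge at each vertex of the two cycles), and for
each `a` and `d = 1, ..., (r-1)/2` the orbit `{(a, i), (a, i + d)}` (`r` pairs, two edges at each
vertex of the cycle `a`).  So `G` corresponds to a set `S` of triples `(a, b, d)` and an arbitrary
subset of `Fin m × Fin ((r-1)/2)`; the number of edges is `r` times the sum of the two cardinalities; the
degree of `(a, i)` is even if and only if an even number of triples of `S` contain `a`.  The sum over the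
second subset is `(1 + X^r)^(m (r-1)/2)`. -/
def S_graphA : Prop :=
  ∀ (m r : ℕ) [NeZero r], Odd r → W (rot m r) =
    (1 + Polynomial.X ^ r) ^ (m * ((r - 1) / 2)) *
      ∑ S ∈ evenSets m r, (Polynomial.X ^ r) ^ S.card

/-- **graphB.** Character sum. Proof. `[all degrees even] = 2^(-m) ∑_{s ∈ {±1}^m} ∏_a s_a^(deg a)`, and
`∏_a s_a^(deg a) = ∏_{(a,b,d) ∈ S} s_a s_b`, so `2^m ∑_{S even} y^|S| = ∑_s ∏_{a<b} (1 + s_a s_b y)^r`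
(`Finset.prod_one_add` or similar); if `k` of the `s_a` are `-1` then `k (m-k)` of the `m (m-1)/2`
pairs have `s_a s_b = -1`. -/
def S_graphB : Prop :=
  ∀ (m r : ℕ) (y : Polynomial ℤ), (2 : Polynomial ℤ) ^ m * ∑ S ∈ evenSets m r, y ^ S.card =
    ∑ k ∈ Finset.range (m + 1), (m.choose k : Polynomial ℤ) *
      ((1 + y) ^ (r * (m.choose 2 - k * (m - k))) * (1 - y) ^ (r * (k * (m - k))))

/-- **main.** The final theorem.  Proof. Let `m = 2B+2`, `C₁` from `S_grow m`, `C₂` from `S_op B`,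
`Λ₀` from `S_A B`, `C = 4·6^B·C₂·(…)` such that `(C₁ r)^(4·6^B·C₂) ≤ r^C` for large `r`, `r₀` from
`S_final B m C`; choose `r` odd and large, `Λ = C₁ r`, `α` the permutation of `Fin (m r)` conjugate to
`rot m r` (`W` is invariant under relabelling).  By `S_graphA`, `S_graphB`:
`2^m W α = (1+x^r)^M ∑_k C(m,k) V^(r k (m-k))` with `V = (1-x^r)/(1+x^r)`,
`M = m (r-1)/2 + r m(m-1)/2`; so `W₁ = W α (1+x^r)^(-M)` is an integer power series with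
`IsW m r V W₁`.  If `W α = ∑_t c_t ∏ ...` on `(0,1)` then `W₁ = ∑_t c_t f_t` with `f_t` from `S_prod`
(`N = -M`), first on `(0,1)`, then as power series (identity theorem). `S_A` gives `T`, `X`
with `Λ^4 ≤ X ≤ Λ^(4·6^B)`, `S_op` gives `A`, `m₀ ≤ B X`, and `m₀ + r² ≤ B X + r² ≤ X² < X^6`, so `S_final` is
contradicted. -/
def S_main : Prop :=
  ∀ B : ℕ, ∃ (p : ℕ) (α : Equiv.Perm (Fin p)), ¬ ∃ (c : Fin B → ℝ) (K : Fin B → Finset ℕ)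
    (a b : Fin B → ℕ → ℤ), (∀ t, 0 ∉ K t) ∧ ∀ x : ℝ, 0 < x → x < 1 →
      Polynomial.aeval x (W α) = ∑ t, c t * ∏ k ∈ K t, (1 + x ^ k) ^ (a t k) * (1 - x ^ k) ^ (b t k)

end Pool.Agent.H5.EG
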