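import Pool.Agent.H187.EG.Gap
import Pool.Agent.H726.EG.Pivot
import Pool.Agent.H106.EG.Cramer
import Pool.Agent.H597.EG.Fourier
import Pool.Agent.H230.EG.Cauchy
import Pool.Agent.H695.EG.Jensen
import Pool.Agent.H286.EG.Cartan
import Pool.Agent.H195.EG.Exp
import Pool.Agent.H155.EG.Maj
import Pool.Agent.H282.EG.Fcoef
import Pool.Agent.H59.EG.Tiny
import Pool.Agent.H922.EG.Wsup
import Pool.Agent.H407.EG.Core1
import Pool.Agent.H603.EG.Core2
import Pool.Agent.H803.EG.Core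
import Pool.Agent.H154.EG.Step
import Pool.Agent.H767.EG.A
import Pool.Agent.H707.EG.Op
import Pool.Agent.H828.EG.Coef
import Pool.Agent.H349.EG.Inj
import Pool.Agent.H400.EG.Final
import Pool.Agent.H94.EG.GraphA
import Pool.Agent.H653.EG.GraphB
import Pool.Agent.H935.EG.Grow
import Pool.Agent.H187.EG.Prod
import Pool.Agent.H549.EG.Main

set_option autoImplicit false

namespace Pool.Agent.H5.EG

theorem t_fcoef : S_fcoef :=
  Pool.Agent.H282.EG.fcoef Pool.Agent.H597.EG.fourier Pool.Agent.H230.EG.cauchy Pool.Agent.H195.EG.exp_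

theorem t_core1 : S_core1 := Pool.Agent.H407.EG.Core1.core1 Pool.Agent.H726.EG.pivot Pool.Agent.H106.EG.cramer

theorem t_core2 : S_core2 :=
  Pool.Agent.H603.EG.core2 t_fcoef (Pool.Agent.H155.EG.Gbound Pool.Agent.H155.EG.maj)
    Pool.Agent.H155.EG.maj Pool.Agent.H230.EG.cauchy

theorem t_core : S_core :=
  Pool.Agent.H803.EG.core t_core1 t_core2 Pool.Agent.H59.EG.tiny
    (Pool.Agent.H922.EG.wsup Pool.Agent.H230.EG.cauchy Pool.Agent.H155.EG.maj)
    Pool.Agent.H695.EG.Jensen.jensen Pool.Agent.H286.EG.cartan Pool.Agent.H195.EG.exp_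
    Pool.Agent.H597.EG.fourier

theorem t_A : S_A := Pool.Agent.H767.EG.A_ (Pool.Agent.H154.EG.step Pool.Agent.H187.EG.gap t_core) t_fcoef

theorem t_op : S_op := Pool.Agent.H707.EG.op t_core1

theorem t_final : S_final := Pool.Agent.H400.EG.final Pool.Agent.H828.EG.Coef.coef Pool.Agent.H349.EG.inj

theorem t_prod : S_prod := Pool.Agent.H187.EGP.prod_ Pool.Agent.H195.EG.exp_ Pool.Agent.H597.EG.fourier

theorem t_main : S_main :=
  Pool.Agent.H549.EG.main_ t_A t_op t_final Pool.Agent.H935.EG.grow t_prod Pool.Agent.H94.EG.graphA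
    Pool.Agent.H653.EG.graphB

open Pool.Agent.H549.EG in
/-- The main theorem for all cycle types `(r^m)`, `m ≥ 2B+2`, `r` odd and large. -/
theorem main_rot (B m : ℕ) (hmB : 2 * B + 2 ≤ m) : ∃ r₀ : ℕ, ∀ (r : ℕ) [NeZero r], r₀ ≤ r → Odd r →
    ¬ ∃ (c : Fin B → ℝ) (K : Fin B → Finset ℕ) (a b : Fin B → ℕ → ℤ), (∀ t, 0 ∉ K t) ∧
      ∀ x : ℝ, 0 < x → x < 1 → Polynomial.aeval x (W (rot m r)) =
        ∑ t, c t * ∏ k ∈ K t, (1 + x ^ k) ^ (a t k) * (1 - x ^ k) ^ (b t k) := by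
  have h1 := t_A
  have h2 := t_op
  have h3 := t_final
  have h4 := Pool.Agent.H935.EG.grow
  have h5 := t_prod
  have h6 := Pool.Agent.H94.EG.graphA
  have h7 := Pool.Agent.H653.EG.graphB
  obtain ⟨C₁, hC₁⟩ := h4 m
  obtain ⟨C₂, hC₂⟩ := h2 B
  obtain ⟨Λ₀, hΛ₀⟩ := h1 B
  obtain ⟨r₀, hr₀⟩ := h3 B m (2 * (4 * 6 ^ B) * C₂) hmB
  refine ⟨r₀ + C₁ + Λ₀ + B + 1 + 1, fun r _ hrr hodd => ?_⟩
  rintro ⟨c, K, a, b, hK, hrep⟩
  obtain ⟨V, W₁, hIsW, hW₁⟩ := exists_isW m r (by omega) h7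
  obtain ⟨M, hM⟩ : ∃ M, M = m * ((r - 1) / 2) + r * m.choose 2 := ⟨_, rfl⟩
  have hW₂ : W₁ * ((((1 : Polynomial ℤ) + Polynomial.X ^ r) ^ M : Polynomial ℤ) : PowerSeries ℤ) =
      ((W (rot m r) : Polynomial ℤ) : PowerSeries ℤ) := by
    rw [h6 m r hodd, Polynomial.coe_mul, ← hW₁, hM, pow_add, Polynomial.coe_mul,
      Polynomial.coe_pow, Polynomial.coe_pow, Polynomial.coe_add, Polynomial.coe_one,
      Polynomial.coe_pow, Polynomial.coe_X]
    ring
  obtain ⟨hcc, hG⟩ := hC₁ r V W₁ (by omega) hIsW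
  have hG' : Growth W₁ ((C₁ + 1) * r) := growth_mono hG (Nat.mul_le_mul_right _ (by omega))
  choose F hF using fun t => h5 (K t) (a t) (b t) (-(M : ℤ)) r (hK t) (by omega)
  have hcoef := coef_rep hG.1 (W (rot m r)) r M hW₂ c
    (fun t x => ∏ k ∈ K t, (1 + x ^ k) ^ (a t k) * (1 - x ^ k) ^ (b t k)) F hrep hF
  have hΛr : r ≤ (C₁ + 1) * r := Nat.le_mul_of_pos_left _ (by omega)
  obtain ⟨T, X, hX1, hX2, hI, hR, hs⟩ := hΛ₀ ((C₁ + 1) * r) (by omega) F W₁ hcc hG'
    ⟨fun t => c t, hcoef⟩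
  have hrX : r ^ 4 ≤ X := (Nat.pow_le_pow_left hΛr 4).trans hX1
  have hr2 : r ^ 2 ≤ X := (Nat.pow_le_pow_right (by omega) (by norm_num)).trans hrX
  have hr1 : r ≤ X := (Nat.le_self_pow (by norm_num) r).trans hrX
  have hXB : B + 1 ≤ X := by omega
  have hXle : X ≤ r ^ (2 * (4 * 6 ^ B)) := by
    rw [pow_mul]
    refine hX2.trans (Nat.pow_le_pow_left ?_ _)
    rw [sq]
    exact Nat.mul_le_mul_right _ (by omega)
  obtain ⟨A, m₀, hm₀, hA1, hA2, hA3, hA4⟩ := hC₂ F W₁ T X (by omega) hI hR hs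
  have hle : m₀ + r ^ 2 ≤ X ^ 2 := by
    have h8 : B * X + X ≤ X * X := by
      have := Nat.mul_le_mul_right X hXB
      linarith
    rw [sq X]
    omega
  refine hr₀ r (by omega) V W₁ hIsW ⟨A, m₀, hA1, hA2, fun i n hn => ?_, fun n hn => ?_⟩
  · refine (hA3 i n (hn.trans hle)).trans ?_
    rw [pow_mul]
    exact pow_le_pow_left₀ (by positivity) (by exact_mod_cast hXle) _
  · refine hA4 n (lt_of_le_of_lt (hn.trans hle) ?_)
    exact Nat.pow_lt_pow_right (by omega) (by norm_num)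

/-! ### The cycle type -/

theorem rot_pow (m r n : ℕ) (x : Fin m × ZMod r) : (rot m r ^ n) x = (x.1, x.2 + n) := by
  induction n with
  | zero => simp
  | succ n ih =>
    rw [pow_succ', Equiv.Perm.mul_apply, ih]
    simp [rot, add_assoc]

theorem cycleType_rot (m r : ℕ) [NeZero r] (hr : 2 ≤ r) :
    (rot m r).cycleType = Multiset.replicate m r := by
  have hall : ∀ n ∈ (rot m r).cycleType, n = r := by
    intro n hn
    have h1 : n ∣ orderOf (rot m r) := Equiv.Perm.dvd_of_mem_cycleType hn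
    have h2 : orderOf (rot m r) ∣ r := by
      rw [orderOf_dvd_iff_pow_eq_one]
      ext x : 1
      rw [rot_pow]
      simp
    rw [Equiv.Perm.cycleType_def, Multiset.mem_map] at hn
    obtain ⟨c, hc, hcn⟩ := hn
    have hc' : c ∈ (rot m r).cycleFactorsFinset := hc
    have hcyc := (Equiv.Perm.mem_cycleFactorsFinset_iff.1 hc').1
    obtain ⟨x, hx⟩ := hcyc.nonempty_support
    have h3 : c = (rot m r).cycleOf x := Equiv.Perm.cycle_is_cycleOf hx hc'
    have h4 : (c ^ n) x = x := by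
      have h5 := hcyc.orderOf
      have h6 : orderOf c = n := h5.trans hcn
      rw [← h6, pow_orderOf_eq_one]
      rfl
    rw [h3, Equiv.Perm.cycleOf_pow_apply_self, rot_pow] at h4
    have h7 : (n : ZMod r) = 0 := by
      have := congrArg Prod.snd h4
      simpa using this
    exact Nat.dvd_antisymm (h1.trans h2) ((ZMod.natCast_eq_zero_iff n r).1 h7)
  have hcard : (rot m r).support = Finset.univ := by
    rw [Finset.eq_univ_iff_forall]
    intro x
    rw [Equiv.Perm.mem_support]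
    intro h
    have h1 := rot_pow m r 1 x
    rw [pow_one, h] at h1
    have h2 : ((1 : ℕ) : ZMod r) = 0 := by
      have := congrArg Prod.snd h1
      simpa using this.symm
    have h3 := (ZMod.natCast_eq_zero_iff 1 r).1 h2
    have := Nat.le_of_dvd one_pos h3
    omega
  have hrep := Multiset.eq_replicate_card.2 hall
  have hsum := Equiv.Perm.sum_cycleType (rot m r)
  rw [hcard, Finset.card_univ, Fintype.card_prod, Fintype.card_fin, ZMod.card, hrep,
    Multiset.sum_replicate, smul_eq_mul] at hsum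
  have hm : Multiset.card (rot m r).cycleType = m := by
    refine Nat.eq_of_mul_eq_mul_right (show 0 < r by omega) ?_
    simpa using hsum
  rw [hrep, hm]

theorem cycleType_permCongr {V V' : Type} [Fintype V] [DecidableEq V] [Fintype V'] [DecidableEq V']
    (e : V ≃ V') (α : Equiv.Perm V) : (e.permCongr α).cycleType = α.cycleType := by
  have h := Equiv.Perm.cycleType_extendDomain (p := fun _ : V' => True)
    (f := e.trans (Equiv.subtypeUnivEquiv (fun _ => trivial)).symm) (g := α)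
  rw [← h]
  have h2 : e.permCongr α = α.extendDomain (p := fun _ : V' => True)
      (e.trans (Equiv.subtypeUnivEquiv (fun _ => trivial)).symm) := by
    ext x
    rw [Equiv.Perm.extendDomain_apply_subtype _ _ trivial]
    simp [Equiv.subtypeUnivEquiv]
  rw [h2]

theorem W_eq_of_cycleType {m r : ℕ} [NeZero r] (hr : 2 ≤ r) (α : Equiv.Perm (Fin (m * r)))
    (hα : α.cycleType = Multiset.replicate m r) : W α = W (rot m r) := by
  have hcard : Fintype.card (Fin (m * r)) = Fintype.card (Fin m × ZMod r) := by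
    simp [ZMod.card]
  have e := Fintype.equivOfCardEq hcard
  have h1 : (e.permCongr α).cycleType = (rot m r).cycleType := by
    rw [cycleType_permCongr, hα, cycleType_rot m r hr]
  obtain ⟨σ, hσ⟩ := isConj_iff.1 (Equiv.Perm.isConj_iff_cycleType_eq.2 h1)
  have h2 : σ.permCongr (e.permCongr α) = rot m r := by
    rw [← hσ]
    ext x : 1
    simp [Equiv.permCongr_apply, Equiv.Perm.mul_apply, Equiv.Perm.inv_def]
  rw [← h2, Pool.Agent.H549.EG.W_perm, Pool.Agent.H549.EG.W_perm]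

/-- The main theorem for all cycle types `(r^m)`, `m ≥ 2B+2`, `r` odd and large. -/
theorem main_type (B m : ℕ) (hmB : 2 * B + 2 ≤ m) : ∃ r₀ : ℕ, ∀ r : ℕ, r₀ ≤ r → Odd r →
    ∀ α : Equiv.Perm (Fin (m * r)), α.cycleType = Multiset.replicate m r →
    ¬ ∃ (c : Fin B → ℝ) (K : Fin B → Finset ℕ) (a b : Fin B → ℕ → ℤ), (∀ t, 0 ∉ K t) ∧
      ∀ x : ℝ, 0 < x → x < 1 → Polynomial.aeval x (W α) =
        ∑ t, c t * ∏ k ∈ K t, (1 + x ^ k) ^ (a t k) * (1 - x ^ k) ^ (b t k) := by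
  obtain ⟨r₀, h⟩ := main_rot B m hmB
  refine ⟨r₀ + 2, fun r hr hodd α hα => ?_⟩
  have : NeZero r := ⟨by omega⟩
  rw [W_eq_of_cycleType (by omega) α hα]
  exact h r (by omega) hodd

end Pool.Agent.H5.EG
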