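import Mathlib

/-!
# MP_98cfca_co, Q1: basic definitions

`D` is the derivation `x d/dx` of power series, `G g i` is the power series with `D^i f = G g i * f`
whenever `D f = g * f`, `ev h x` is the value of the power series `h` at `x`, `Rad h` says that `h`
converges absolutely in the open unit disc.  `Fn` is the type of the functions
`f = exp (- ∑ s n x^n / n)` with integer coefficients of `f`, integers `s n` (bounded), and bounded
characteristic: for instance the finite products of integer powers of `1 - x ^ k`.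
-/

set_option autoImplicit false

namespace Pool.Agent.H5.EG

open PowerSeries

/-- The derivation `x d/dx`. -/
noncomputable def D {R : Type} [CommRing R] (h : PowerSeries R) : PowerSeries R :=
  PowerSeries.mk fun n => (n : R) * PowerSeries.coeff n h

/-- If `D f = g * f` then `D^i f = G g i * f`. -/
noncomputable def G {R : Type} [CommRing R] (g : PowerSeries R) : ℕ → PowerSeries R
  | 0 => 1
  | i + 1 => D (G g i) + g * G g i

/-- The power series converges absolutely in the open unit disc. -/
def Rad (h : PowerSeries ℂ) : Prop :=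
  ∀ ρ : ℝ, 0 ≤ ρ → ρ < 1 → Summable fun n => ‖PowerSeries.coeff n h‖ * ρ ^ n

/-- The value of a power series. -/
noncomputable def ev (h : PowerSeries ℂ) (x : ℂ) : ℂ := ∑' n, PowerSeries.coeff n h * x ^ n

/-- Integer power series as complex power series. -/
noncomputable def toC (h : PowerSeries ℤ) : PowerSeries ℂ := PowerSeries.map (Int.castRingHom ℂ) h

/-- The power series `- ∑ s n x^n / n`. -/
noncomputable def phi (s : ℕ → ℤ) : PowerSeries ℂ := PowerSeries.mk fun n => -(s n : ℂ) / n

/-- The power series `- ∑ s n x^n`. -/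
noncomputable def gg (s : ℕ → ℤ) : PowerSeries ℤ := PowerSeries.mk fun n => -(s n)

/-- The mean value of `|log |f||` on the circle of radius `ρ`, where `f = exp (phi s)`. -/
noncomputable def mn (s : ℕ → ℤ) (ρ : ℝ) : ℝ :=
  Real.circleAverage (fun x => |(ev (phi s) x).re|) 0 ρ

/-- The functions `f = exp (- ∑ s n x^n / n)` (see the head of the file). -/
structure Fn where
  /-- the coefficients of `- D f / f` -/
  s : ℕ → ℤ
  /-- the power series -/
  f : PowerSeries ℤ
  s0 : s 0 = 0
  f0 : PowerSeries.constantCoeff f = 1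
  eq : D f = gg s * f
  bd : ∃ H : ℝ, ∀ n, |(s n : ℝ)| ≤ H
  ch : ∃ H : ℝ, ∀ ρ : ℝ, 0 < ρ → ρ < 1 → mn s ρ ≤ H

section algebra
variable {R : Type} [CommRing R]

@[simp] theorem coeff_D (h : PowerSeries R) (n : ℕ) :
    PowerSeries.coeff n (D h) = (n : R) * PowerSeries.coeff n h := by
  simp [D]

theorem D_add (a b : PowerSeries R) : D (a + b) = D a + D b := by
  ext n; simp [mul_add]

theorem D_mul (a b : PowerSeries R) : D (a * b) = D a * b + a * D b := by
  ext n
  simp only [coeff_D, map_add, PowerSeries.coeff_mul]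
  rw [Finset.mul_sum, ← Finset.sum_add_distrib]
  refine Finset.sum_congr rfl fun p hp => ?_
  have h1 : (n : R) = (p.1 : R) + p.2 := by
    rw [← Nat.cast_add, Finset.HasAntidiagonal.mem_antidiagonal.1 hp]
  rw [h1]; ring

theorem D_one : D (1 : PowerSeries R) = 0 := by
  ext n
  rcases n with _ | n <;> simp [PowerSeries.coeff_one]

theorem D_iter_eq {f g : PowerSeries R} (h : D f = g * f) (i : ℕ) : D^[i] f = G g i * f := by
  induction i with
  | zero => simp [G]
  | succ i ih =>
    rw [Function.iterate_succ_apply', ih, D_mul, h, G]; ring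

theorem coeff_D_iter (h : PowerSeries R) (i n : ℕ) :
    PowerSeries.coeff n (D^[i] h) = (n : R) ^ i * PowerSeries.coeff n h := by
  induction i with
  | zero => simp
  | succ i ih => rw [Function.iterate_succ_apply', coeff_D, ih]; ring

end algebra

theorem coeff_toC (h : PowerSeries ℤ) (n : ℕ) :
    PowerSeries.coeff n (toC h) = ((PowerSeries.coeff n h : ℤ) : ℂ) := by
  simp [toC]

theorem toC_D (h : PowerSeries ℤ) : toC (D h) = D (toC h) := by
  ext n; simp [coeff_toC]

theorem toC_mul (a b : PowerSeries ℤ) : toC (a * b) = toC a * toC b := by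
  simp [toC]

theorem toC_add (a b : PowerSeries ℤ) : toC (a + b) = toC a + toC b := by
  simp [toC]

theorem toC_one : toC 1 = 1 := by simp [toC]

theorem toC_G (g : PowerSeries ℤ) (i : ℕ) : toC (G g i) = G (toC g) i := by
  induction i with
  | zero => simp [G, toC_one]
  | succ i ih => rw [G, G, toC_add, toC_D, toC_mul, ih]

section analysis

theorem ev_summable {h : PowerSeries ℂ} (hh : Rad h) {x : ℂ} (hx : ‖x‖ < 1) :
    Summable fun n => ‖PowerSeries.coeff n h * x ^ n‖ := by
  have := hh ‖x‖ (norm_nonneg _) hx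
  simpa [norm_mul, norm_pow] using this

theorem Rad.add {a b : PowerSeries ℂ} (ha : Rad a) (hb : Rad b) : Rad (a + b) := by
  intro ρ h0 h1
  refine Summable.of_nonneg_of_le (fun n => by positivity) (fun n => ?_)
    ((ha ρ h0 h1).add (hb ρ h0 h1))
  rw [← add_mul, map_add]
  gcongr
  exact norm_add_le _ _

theorem Rad.C_mul {a : PowerSeries ℂ} (ha : Rad a) (c : ℂ) : Rad (PowerSeries.C c * a) := by
  intro ρ h0 h1
  have := (ha ρ h0 h1).mul_left ‖c‖
  refine this.congr fun n => ?_
  rw [PowerSeries.coeff_C_mul, norm_mul]; ring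

theorem Rad.mul {a b : PowerSeries ℂ} (ha : Rad a) (hb : Rad b) : Rad (a * b) := by
  intro ρ h0 h1
  have h2 := summable_norm_sum_mul_antidiagonal_of_summable_norm
    (f := fun n => ‖PowerSeries.coeff n a‖ * ρ ^ n) (g := fun n => ‖PowerSeries.coeff n b‖ * ρ ^ n)
    (by simpa [abs_of_nonneg h0] using ha ρ h0 h1) (by simpa [abs_of_nonneg h0] using hb ρ h0 h1)
  refine Summable.of_nonneg_of_le (fun n => by positivity) (fun n => ?_) h2
  refine le_trans ?_ (le_abs_self _)
  rw [PowerSeries.coeff_mul]
  calc _ ≤ (∑ p ∈ Finset.HasAntidiagonal.antidiagonal n, ‖PowerSeries.coeff p.1 a * PowerSeries.coeff p.2 b‖)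
        * ρ ^ n := by gcongr; exact norm_sum_le _ _
    _ = _ := by
      rw [Finset.sum_mul]
      refine Finset.sum_congr rfl fun p hp => ?_
      rw [← Finset.HasAntidiagonal.mem_antidiagonal.1 hp, norm_mul, pow_add]; ring

theorem Rad.one : Rad 1 := by
  intro ρ h0 h1
  refine summable_of_ne_finset_zero (s := {0}) fun n hn => ?_
  have : n ≠ 0 := by simpa using hn
  simp [PowerSeries.coeff_one, this]

theorem Rad.D {a : PowerSeries ℂ} (ha : Rad a) : Rad (D a) := by
  intro ρ h0 h1
  obtain ⟨R, hR1, hR2⟩ := exists_between h1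
  have hR0 : 0 < R := lt_of_le_of_lt h0 hR1
  have h3 := ha R hR0.le hR2
  have hq : ρ / R < 1 := (div_lt_one hR0).2 hR1
  have hq0 : 0 ≤ ρ / R := by positivity
  have h4 : Summable fun n : ℕ => (n : ℝ) * (ρ / R) ^ n := by
    have := summable_pow_mul_geometric_of_norm_lt_one 1 (r := ρ / R)
      (by rwa [Real.norm_of_nonneg hq0])
    simpa using this
  obtain ⟨K, hK⟩ := h4.tendsto_atTop_zero.bddAbove_range
  have hK' : ∀ n : ℕ, (n : ℝ) * (ρ / R) ^ n ≤ K := fun n => hK ⟨n, rfl⟩
  refine Summable.of_nonneg_of_le (fun n => by positivity) (fun n => ?_) (h3.mul_left K)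
  rw [coeff_D, norm_mul, Complex.norm_natCast]
  have : ρ ^ n = (ρ / R) ^ n * R ^ n := by rw [← mul_pow, div_mul_cancel₀ _ hR0.ne']
  rw [this]
  calc (n : ℝ) * ‖PowerSeries.coeff n a‖ * ((ρ / R) ^ n * R ^ n)
      = ((n : ℝ) * (ρ / R) ^ n) * (‖PowerSeries.coeff n a‖ * R ^ n) := by ring
    _ ≤ K * (‖PowerSeries.coeff n a‖ * R ^ n) := by
      gcongr; exact hK' n

theorem ev_add {a b : PowerSeries ℂ} (ha : Rad a) (hb : Rad b) {x : ℂ} (hx : ‖x‖ < 1) :
    ev (a + b) x = ev a x + ev b x := by
  rw [ev, ev, ev, ← ((ev_summable ha hx).of_norm).tsum_add ((ev_summable hb hx).of_norm)]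
  exact tsum_congr fun n => by rw [map_add]; ring

theorem ev_mul {a b : PowerSeries ℂ} (ha : Rad a) (hb : Rad b) {x : ℂ} (hx : ‖x‖ < 1) :
    ev (a * b) x = ev a x * ev b x := by
  rw [ev, ev, ev, tsum_mul_tsum_eq_tsum_sum_antidiagonal_of_summable_norm (ev_summable ha hx)
    (ev_summable hb hx)]
  refine tsum_congr fun n => ?_
  rw [PowerSeries.coeff_mul, Finset.sum_mul]
  refine Finset.sum_congr rfl fun p hp => ?_
  rw [← Finset.HasAntidiagonal.mem_antidiagonal.1 hp, pow_add]; ring

theorem ev_one {x : ℂ} : ev 1 x = 1 := by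
  rw [ev, tsum_eq_single 0]
  · simp
  · intro n hn; simp [PowerSeries.coeff_one, hn]

theorem ev_C_mul {a : PowerSeries ℂ} (c : ℂ) {x : ℂ} :
    ev (PowerSeries.C c * a) x = c * ev a x := by
  rw [ev, ev, ← tsum_mul_left]
  exact tsum_congr fun n => by rw [PowerSeries.coeff_C_mul]; ring

/-- The radius of convergence in the sense of Mathlib. -/
theorem hasFPowerSeries {a : PowerSeries ℂ} (ha : Rad a) :
    HasFPowerSeriesOnBall (ev a) (FormalMultilinearSeries.ofScalars ℂ
      (fun n => PowerSeries.coeff n a)) 0 1 := by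
  have hr : (1 : ENNReal) ≤ (FormalMultilinearSeries.ofScalars ℂ
      (fun n => PowerSeries.coeff n a)).radius := by
    refine le_of_forall_lt fun r hr => ?_
    lift r to NNReal using (hr.trans ENNReal.one_lt_top).ne
    have hr1 : (r : ℝ) < 1 := by exact_mod_cast hr
    obtain ⟨R, hR1, hR2⟩ := exists_between hr1
    have hR0 : 0 ≤ R := r.2.trans hR1.le
    lift R to NNReal using hR0
    refine lt_of_lt_of_le (b := (R : ENNReal)) (by exact_mod_cast hR1) ?_
    refine FormalMultilinearSeries.le_radius_of_summable_norm _ ?_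
    have := ha R R.2 hR2
    refine Summable.of_nonneg_of_le (fun n => by positivity) (fun n => ?_) this
    gcongr
    simp
  refine ⟨hr, by simp, ?_⟩
  intro y hy
  have hy1 : ‖y‖ < 1 := by
    have := hy
    simp only [Metric.mem_eball, edist_zero_right] at this
    rw [← ofReal_norm] at this
    exact_mod_cast (ENNReal.ofReal_lt_one.1 this)
  have h1 := ((ev_summable ha hy1).of_norm).hasSum
  simp only [FormalMultilinearSeries.ofScalars_apply_eq, zero_add]
  simpa [ev, smul_eq_mul] using h1

theorem ev_analytic {a : PowerSeries ℂ} (ha : Rad a) :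
    AnalyticOnNhd ℂ (ev a) (Metric.ball 0 1) := by
  have h := (hasFPowerSeries ha).analyticOnNhd
  intro x hx
  apply h
  have hx1 : ‖x‖ < 1 := by simpa using hx
  rw [Metric.mem_eball, edist_zero_right, ← ofReal_norm]
  exact_mod_cast (ENNReal.ofReal_lt_one.2 hx1)

end analysis

end Pool.Agent.H5.EG
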