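import Pool.Agent.H5.EG.All
import Pool.Agent.H30.EG.Resid
import Pool.Agent.H767.EG.Rat
import Pool.Agent.H225.EG.Indep
import Pool.Agent.H996.EG.Conv

/-!
# MP_98cfca_co, Q1: the main theorem with real exponents
-/

set_option autoImplicit false

namespace Pool.Agent.H5.EG

theorem t_conv : S_conv :=
  Pool.Agent.H996.EG.conv
    (Pool.Agent.H225.EG.Indep.indep (Pool.Agent.H767.EG.Rat.rat Pool.Agent.H30.EG.Resid.resid))

/-- The main theorem for all cycle types `(r^m)`, `m ≥ 2B+2`, `r` odd and large, real exponents. -/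
theorem main_real (B m : ℕ) (hmB : 2 * B + 2 ≤ m) : ∃ r₀ : ℕ, ∀ r : ℕ, r₀ ≤ r → Odd r →
    ∀ α : Equiv.Perm (Fin (m * r)), α.cycleType = Multiset.replicate m r →
    ¬ ∃ (c : Fin B → ℝ) (K : Fin B → Finset ℕ) (a b : Fin B → ℕ → ℝ), (∀ t, 0 ∉ K t) ∧
      ∀ x : ℝ, 0 < x → x < 1 → Polynomial.aeval x (W α) =
        ∑ t, c t * ∏ k ∈ K t, (1 + x ^ k) ^ (a t k) * (1 - x ^ k) ^ (b t k) := by
  obtain ⟨r₀, h⟩ := main_type B m hmB
  refine ⟨r₀, fun r hr hodd α hα hex => h r hr hodd α hα ?_⟩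
  have he : ∀ x : ℝ, Polynomial.aeval x (W α) = ((W α).map (Int.castRingHom ℝ)).eval x := by
    intro x
    rw [Polynomial.eval_map, Polynomial.aeval_def, algebraMap_int_eq]
  simp only [he] at hex ⊢
  exact t_conv ((W α).map (Int.castRingHom ℝ)) B hex

/-- There are permutations of cycle type `(r^m)`. -/
theorem exists_type (m r : ℕ) (hr : 2 ≤ r) :
    ∃ α : Equiv.Perm (Fin (m * r)), α.cycleType = Multiset.replicate m r := by
  have : NeZero r := ⟨by omega⟩
  have hcard : Fintype.card (Fin m × ZMod r) = Fintype.card (Fin (m * r)) := by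
    simp [ZMod.card]
  refine ⟨(Fintype.equivOfCardEq hcard).permCongr (rot m r), ?_⟩
  rw [cycleType_permCongr, cycleType_rot m r hr]

end Pool.Agent.H5.EG
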