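import Pool.Agent.H5.EG.Defs

/-!
# MP_98cfca_co, Q1: statements of the lemmas

Goal (`S_main`): for every `B` there is a permutation `α` (of cycle type `(r^m)`) such that the
generating function `W α` by edges of the even graphs fixed by `α` is not a sum of `B` terms, each a
constant times a finite product of integer powers of `1 + x^k`, `1 - x^k` (arbitrary `k`).
-/

set_option autoImplicit false

namespace Pool.Agent.H5.EG

open PowerSeries

/-- The sequences `f t`, `t ∈ T`, are linearly independent when truncated to the indices `< n`. -/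
def Ind {ι : Type} (f : ι → ℕ → ℂ) (T : Finset ι) (n : ℕ) : Prop :=
  ∀ d : ι → ℂ, (∀ k < n, ∑ t ∈ T, d t * f t k = 0) → ∀ t ∈ T, d t = 0

/-- The sequence `W` truncated to the indices `< n` is in the span of the `f t`, `t ∈ T`. -/
def Rep {ι : Type} (f : ι → ℕ → ℂ) (W : ℕ → ℂ) (T : Finset ι) (n : ℕ) : Prop :=
  ∃ c : ι → ℂ, ∀ k < n, W k = ∑ t ∈ T, c t * f t k

/-- The coefficients of an integer power series as complex numbers. -/
noncomputable def cf (h : PowerSeries ℤ) (k : ℕ) : ℂ := ((PowerSeries.coeff k h : ℤ) : ℂ)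

/-- **gap.** Pure linear algebra.
Proof. Let `r i` be the dimension of the span of the vectors `(f t k)_{k < n i}`, `t ∈ T`. Then
`r` is nondecreasing (truncation maps the span for `n (i+1)` onto the span for `n i`) and
`r i ≤ T.card ≤ B`, so `r i = r (i+1)` for some `i ≤ B`.  Let `T' ⊆ T` be of minimal cardinality with
`Rep f W T' (n (i+1))`, `c` the coefficients (set `c = 0` outside `T'` if convenient). All `c t ≠ 0`
(otherwise remove `t`).  If `∑_{T'} d t f t k = 0` for all `k < n (i+1)` and `d t₀ ≠ 0` then `f t₀`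
can be eliminated from the representation, contradiction to minimality.  So `Ind f T' (n (i+1))`.
If `∑_{T'} d t f t k = 0` for `k < n i` then, as the truncation map between the two spans of all of
`T` is surjective between spaces of equal finite dimension, hence injective, the sum vanishes for all
`k < n (i+1)`, so `d = 0` on `T'`. -/
def S_gap : Prop :=
  ∀ (ι : Type) [Fintype ι] [DecidableEq ι] (f : ι → ℕ → ℂ) (W : ℕ → ℂ) (T : Finset ι) (B : ℕ)
    (n : ℕ → ℕ), T.card ≤ B → Monotone n → Rep f W T (n (B + 1)) →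
    ∃ i ≤ B, ∃ T' ⊆ T, Ind f T' (n i) ∧
      ∃ c : ι → ℂ, (∀ t ∈ T', c t ≠ 0) ∧ ∀ k < n (i + 1), W k = ∑ t ∈ T', c t * f t k

/-- **pivot.** The leading term of the Wronskian (with respect to `D = x d/dx`).
Proof. Let `U` be the `ℚ`-span of the `v i`; by hypothesis (restrict to rational `d`) the `v i` are
independent and no nonzero element of `U` has all coefficients of index `< X` equal to `0`.  By
Gaussian elimination there are a matrix `P ∈ GL_b(ℚ)` and `p 0 < p 1 < ... < p (b-1) < X` such that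
`h = P v` satisfies `h i = x^(p i) (1 + O(x))` (echelon form: the set of orders of the nonzero elements
of `U` has exactly `b` elements, all `< X`).  The matrix `(coeff (p l) (h i))` is upper triangular with
ones on the diagonal, so `M := det (coeff (p l) (v i)) = (det P)⁻¹ ≠ 0`.  The entries of the `i`-th row
of `(D^l h_i)` are `x^(p i) ((p i)^l + O(x))`; so `det (D^l h_i) = x^(∑ p) (V + O(x))` with
`V = det ((p i)^l) = ∏_{i<j} (p j - p i) ≥ 1` (Vandermonde), and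
`det (D^l v_i) = (det P)⁻¹ det (D^l h_i)`. -/
def S_pivot : Prop :=
  ∀ (b X : ℕ) (v : Fin b → PowerSeries ℤ),
    (∀ d : Fin b → ℂ, (∀ k < X, ∑ i, d i * cf (v i) k = 0) → ∀ i, d i = 0) →
    ∃ p : Fin b → ℕ, StrictMono p ∧ (∀ i, p i < X) ∧
      (Matrix.of fun i l => PowerSeries.coeff (p l) (v i)).det ≠ 0 ∧
      ∃ V : ℤ, 1 ≤ V ∧
        (∀ k < ∑ i, p i,
          PowerSeries.coeff k (Matrix.of fun i (l : Fin b) => D^[(l : ℕ)] (v i)).det = 0) ∧
        PowerSeries.coeff (∑ i, p i) (Matrix.of fun i (l : Fin b) => D^[(l : ℕ)] (v i)).det =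
          (Matrix.of fun i l => PowerSeries.coeff (p l) (v i)).det * V

/-- **cramer.** Proof: `c i * det A = det (A.updateRow i w)` is an integer (Cramer's rule for the
transposed system), `|det A| ≥ 1`, and a determinant with entries at most `K ≥ 1` is at most
`b! K^b`. -/
def S_cramer : Prop :=
  ∀ (b : ℕ) (A : Matrix (Fin b) (Fin b) ℤ) (w : Fin b → ℤ) (c : Fin b → ℂ) (K : ℝ),
    (∀ l, (w l : ℂ) = ∑ i, c i * (A i l : ℂ)) → A.det ≠ 0 → 1 ≤ K → (∀ i l, |(A i l : ℝ)| ≤ K) →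
    (∀ l, |(w l : ℝ)| ≤ K) →
    ∀ i, (c i ≠ 0 → 1 / |(A.det : ℝ)| ≤ ‖c i‖) ∧ ‖c i‖ ≤ b.factorial * K ^ b

/-- **fourier.** (1) Coefficient bound by the mean of `|Re h|`. Proof: for `n ≥ 1` the mean of
`ev h x * (x/ρ)^(-n)` over the circle is `coeff n h * ρ^n` (Cauchy, or termwise integration), and the mean
of `conj (ev h x) * (x/ρ)^(-n) = conj (ev h x * (x/ρ)^n)` is `conj 0 = 0` (mean value property of
the holomorphic function `ev h x * x^n`, which vanishes at `0`).  So `coeff n h * ρ^n` is the mean of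
`2 Re (ev h x) (x/ρ)^(-n)`.  (2) Mean value property (`DiffContOnCl.circleAverage`, with
`ContinuousLinearMap.circleAverage_comp_comm` for `re`). -/
def S_fourier : Prop :=
  ∀ (h : PowerSeries ℂ) (ρ : ℝ), Rad h → 0 < ρ → ρ < 1 →
    (∀ n : ℕ, 1 ≤ n → ‖PowerSeries.coeff n h‖ * ρ ^ n ≤
      2 * Real.circleAverage (fun x => |(ev h x).re|) 0 ρ) ∧
    Real.circleAverage (fun x => (ev h x).re) 0 ρ = (PowerSeries.coeff 0 h).re

/-- **cauchy.** Cauchy's estimate on the circle of radius `ρ`. -/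
def S_cauchy : Prop :=
  ∀ (h : PowerSeries ℂ) (ρ C : ℝ), Rad h → 0 < ρ → ρ < 1 → (∀ x : ℂ, ‖x‖ = ρ → ‖ev h x‖ ≤ C) →
    ∀ n : ℕ, ‖PowerSeries.coeff n h‖ * ρ ^ n ≤ C

/-- **jensen.** From Mathlib's Jensen formula `AnalyticOnNhd.circleAverage_log_norm` /
`MeromorphicOn.circleAverage_log_norm`: `ev h` is analytic on the unit ball (`ev_analytic`), not
identically zero, with order `ν` and leading coefficient `coeff ν h` at `0`; all terms of the zeros
`≠ 0` are `≥ 0`.  The zeros on the circle are finitely many (isolated zeros), and a countable set has a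
null preimage under `circleMap` (`Set.Countable.preimage_circleMap`). -/
def S_jensen : Prop :=
  ∀ (h : PowerSeries ℂ) (ρ : ℝ) (ν : ℕ), Rad h → 0 < ρ → ρ < 1 →
    (∀ k < ν, PowerSeries.coeff k h = 0) → PowerSeries.coeff ν h ≠ 0 →
    CircleIntegrable (fun x => Real.log ‖ev h x‖) 0 ρ ∧
    Real.log ‖PowerSeries.coeff ν h‖ + ν * Real.log ρ ≤
      Real.circleAverage (fun x => Real.log ‖ev h x‖) 0 ρ ∧
    ∀ᵐ θ : ℝ, ev h (circleMap 0 ρ θ) ≠ 0

/-- **cartan.** Means of logarithms.  Notation: mean = circle average over `|x| = ρ`,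
`a i x = log ‖c i‖ + u i x` (continuous on the circle, mean `log ‖c i‖`), `δ x = log ‖Δ x‖`.
Proof. (1) Almost everywhere `a i ≤ log P - δ`.  (2) For `i, j`: `(a i - a j)⁺ ≤ (log P - δ) - a j` a.e.
(the right side is `≥ 0` and `≥ a i - a j` by (1) for `j` and `i`), so
`mean (a i - a j)⁺ ≤ log P - (log M - 1) - log ‖c j‖ ≤ log P + 1`, as `log ‖c j‖ ≥ - log M`.
Exchanging `i` and `j`: `mean |a i - a j| ≤ 2 log P + 2`.  (3) As `∑ c i = 1` some `j` has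
`‖c j‖ ≥ 1 / b`.  A.e. `(a j)⁺ ≤ log P + log Q - δ` (right side is `≥ 0` since `δ ≤ log Q`, and
`≥ a j` since `log Q ≥ 0`), so `mean (a j)⁺ ≤ log P + log Q + 1` (as `log M ≥ 0`), and
`mean |a j| = 2 mean (a j)⁺ - mean (a j) ≤ 2 log P + 2 log Q + 2 + log b`.  (4) So for all `i`:
`mean |a i| ≤ 4 log P + 2 log Q + 4 + log b`, hence `|log ‖c i‖| = |mean (a i)|` is at most this, and
`mean |u i| ≤ mean |a i| + |log ‖c i‖|`.  (For the comparison of means use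
`intervalIntegral.integral_mono_ae`, or change `δ` on the null set.) -/
def S_cartan : Prop :=
  ∀ (b : ℕ) (ρ : ℝ) (u : Fin b → ℂ → ℝ) (c : Fin b → ℂ) (Δ : ℂ → ℂ) (P Q M : ℝ),
    0 < ρ → 1 ≤ P → 1 ≤ Q → 1 ≤ M → (∀ i, c i ≠ 0) → (∀ i, 1 / M ≤ ‖c i‖) → ∑ i, c i = 1 →
    (∀ i, ContinuousOn (u i) (Metric.sphere 0 ρ)) → (∀ i, Real.circleAverage (u i) 0 ρ = 0) →
    CircleIntegrable (fun x => Real.log ‖Δ x‖) 0 ρ →
    Real.log M - 1 ≤ Real.circleAverage (fun x => Real.log ‖Δ x‖) 0 ρ →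
    (∀ᵐ θ : ℝ, Δ (circleMap 0 ρ θ) ≠ 0) →
    (∀ i x, ‖x‖ = ρ → ‖c i‖ * Real.exp (u i x) * ‖Δ x‖ ≤ P) →
    (∀ x, ‖x‖ = ρ → ‖Δ x‖ ≤ Q) →
    ∀ i, Real.circleAverage (fun x => |u i x|) 0 ρ ≤
      8 * Real.log P + 4 * Real.log Q + 8 + 2 * Real.log b

/-- **exp.** `f = exp (phi s)` in the unit disc.
Proof. `Rad (phi s)`: the coefficients are bounded.  `Rad f`: from `D f = gg s * f` the coefficients
`f_n` satisfy `n f_n = - ∑_{k=1}^n s k f_{n-k}`, so with `|s k| ≤ H` (take `H` a natural number) by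
induction `|f_n| ≤ (H+n choose n)` (coefficients of `(1-x)^(-H)`; any bound which is polynomial in `n`
will do).  The function `ev f x * exp (- ev (phi s) x)` has derivative `0` on the unit ball:
`x * deriv (ev a) x = ev (D a) x`, and `D (phi s) = toC (gg s)` (here `s 0 = 0` is used);  at `x = 0`
the value is `1`.  (Or compare power series: the formal exponential.) -/
def S_exp : Prop :=
  ∀ F : Fn, Rad (toC F.f) ∧ Rad (phi F.s) ∧
    ∀ x : ℂ, ‖x‖ < 1 → ev (toC F.f) x = Complex.exp (ev (phi F.s) x)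

/-- Bounds for the coefficients. -/
def Maj (a : ℝ) (p : ℕ) (R : ℝ) (h : PowerSeries ℂ) : Prop :=
  ∀ n : ℕ, ‖PowerSeries.coeff n h‖ * R ^ n ≤ a * (n + 1) ^ p

/-- **maj.** (1) Products: `n + 1` summands, each at most `a a' (n+1)^(p+p')`.  (2) For `|x| ≤ ρ < R`:
`∑ a (n+1)^p (ρ/R)^n ≤ a p! (1 - ρ/R)^(-(p+1))`, because `(n+1)^p ≤ p! (n+p choose p)` and
`∑ (n+p choose p) q^n = (1-q)^(-(p+1))` (Mathlib: `tsum_choose_mul_geometric_of_norm_lt_one`). -/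
def S_maj : Prop :=
  (∀ (a a' R : ℝ) (p p' : ℕ) (h h' : PowerSeries ℂ), 0 ≤ a → 0 ≤ a' → 0 < R → Maj a p R h →
    Maj a' p' R h' → Maj (a * a') (p + p' + 1) R (h * h')) ∧
  (∀ (a R ρ : ℝ) (p : ℕ) (h : PowerSeries ℂ) (x : ℂ), 0 ≤ a → 0 ≤ ρ → ρ < R → Maj a p R h →
    ‖x‖ ≤ ρ → ‖ev h x‖ ≤ a * p.factorial / (1 - ρ / R) ^ (p + 1))

/-- **Gbound.** Induction on `i` with `G g (i+1) = D (G g i) + g * G g i` and the product bound of
`S_maj`: `n a (n+1)^p + 2 τ a (n+1)^(p+2) ≤ (1 + 2 τ) a (n+1)^(p+2)` for `p = 2 i`. -/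
def S_Gbound : Prop :=
  ∀ (g : PowerSeries ℂ) (τ R : ℝ), 0 ≤ τ → 0 < R →
    (∀ n : ℕ, ‖PowerSeries.coeff n g‖ * R ^ n ≤ 2 * τ * (n + 1)) →
    ∀ i : ℕ, Maj ((1 + 2 * τ) ^ i) (2 * i) R (G g i)

/-- **fcoef.** From `S_fourier` for `phi F.s` (its `n`-th coefficient is `- s n / n`): the first claim.
Then for `|x| = ρ < R`: `|ev (phi s) x| ≤ ∑_{n≥1} 2 τ (ρ/R)^n = 2 τ ρ / (R - ρ)`, so
`|ev f x| ≤ exp (2 τ ρ/(R-ρ))` by `S_exp`, and `S_cauchy` gives the second claim. -/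
def S_fcoef : Prop :=
  ∀ (F : Fn) (R ρ τ : ℝ), 0 < ρ → ρ < R → R < 1 → mn F.s R ≤ τ →
    (∀ n : ℕ, |(F.s n : ℝ)| * R ^ n ≤ 2 * n * τ) ∧
    (∀ n : ℕ, ‖cf F.f n‖ * ρ ^ n ≤ Real.exp (2 * τ * ρ / (R - ρ)))

/-- **tiny.** A power series without terms below `x^(X^6)` and with moderate coefficients is tiny.
Proof. For `|x| ≤ 1 - 2u`, `u = 1/(2X²)`, and `R = 1 - u`: `|x|/R ≤ (1-2u)/(1-u) ≤ 1 - u ≤ exp (-u)`, so
`|D^l h (x)| ≤ ∑_{n ≥ X^6} n^l exp (κ X³) exp (-n u)`.  Here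
`exp (- n u) ≤ exp (- X^4/4) exp (- n u/2)` and `∑ n^l exp (-n u/2)` is at most a constant (depending
on `l`) times `(X²)^(l+1)`; and `exp (κ X³ - X^4/4)` times this tends to `0`. -/
def S_tiny : Prop :=
  ∀ κ B : ℕ, ∃ X₀ : ℕ, ∀ X ≥ X₀, ∀ h : PowerSeries ℂ,
    (∀ k < X ^ 6, PowerSeries.coeff k h = 0) →
    (∀ n : ℕ, ‖PowerSeries.coeff n h‖ * (1 - 1 / (2 * (X : ℝ) ^ 2)) ^ n ≤
      Real.exp (κ * (X : ℝ) ^ 3)) →
    ∀ l ≤ B, ∀ x : ℂ, ‖x‖ ≤ 1 - 1 / (X : ℝ) ^ 2 → ‖ev (D^[l] h) x‖ ≤ 1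

/-- Growth of `W` near the unit circle. -/
def Growth (W : PowerSeries ℤ) (Λ : ℕ) : Prop :=
  Rad (toC W) ∧ ∀ S : ℝ, 2 ≤ S → ∀ x : ℂ, ‖x‖ ≤ 1 - 1 / S → ‖ev (toC W) x‖ ≤ S ^ Λ

/-- **Wsup.** Proof. `S_cauchy` with `ρ = 1 - 1/(2X²)` gives `Maj ((2X²)^Λ) 0 ρ W`, so
`Maj ((2X²)^Λ) l ρ (D^l W)`, and the second part of `S_maj` gives, with
`1 - (1-1/X²)/(1-1/(2X²)) ≥ 1/(2X²)`, the bound `(2X²)^Λ l! (2X²)^(l+1) ≤ X^(5Λ)` for `X ≥ 2` and
`Λ ≥ Λ₀(B)`. (`2X² ≤ X³`.) -/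
def S_Wsup : Prop :=
  ∀ B : ℕ, ∃ Λ₀ : ℕ, ∀ Λ ≥ Λ₀, ∀ (W : PowerSeries ℤ) (X : ℕ), 2 ≤ X → Growth W Λ →
    ∀ l ≤ B, ∀ x : ℂ, ‖x‖ ≤ 1 - 1 / (X : ℝ) ^ 2 →
      ‖ev (D^[l] (toC W)) x‖ ≤ (X : ℝ) ^ (5 * Λ)

end Pool.Agent.H5.EG
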