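import Mathlib

/-!
# MP_98cfca_co, Q1: real exponents

A polynomial which is on `(0, 1)` a sum of `B` terms, each a real constant times a finite product of
REAL powers of `1 + x^k`, `1 - x^k`, is also a sum of `B` such terms with INTEGER exponents.
-/

set_option autoImplicit false

namespace Pool.Agent.H5.EG

open Polynomial

/-- The product over `k ∈ K` of the real powers `(1 - x^k)^(e k)`. -/
noncomputable def PR (K : Finset ℕ) (e : ℕ → ℝ) (x : ℝ) : ℝ := ∏ k ∈ K, (1 - x ^ k) ^ (e k)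

/-- **resid.** Residues at `z` of a linear relation between logarithmic derivatives.
Proof. Write `F i = (X - z)^(v i) G i` with `G i (z) ≠ 0` (`Polynomial.exists_eq_pow_rootMultiplicity_mul_and_not_dvd`).
Then `(X - z) (F i)' ∏_{j ≠ i} F j = (X - z)^(∑ v) (v i ∏ G j + (X - z) (G i)' ∏_{j ≠ i} G j)`; sum over
`i` with the factors `l i`, cancel `(X - z)^(∑ v)`, evaluate at `z`, divide by `∏ G j (z) ≠ 0`. -/
def S_resid : Prop :=
  ∀ (ι : Type) [DecidableEq ι] (I : Finset ι) (l : ι → ℂ) (F : ι → ℂ[X]) (z : ℂ),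
    (∀ i ∈ I, F i ≠ 0) →
    ∑ i ∈ I, C (l i) * derivative (F i) * ∏ j ∈ I.erase i, F j = 0 →
    ∑ i ∈ I, l i * ((F i).rootMultiplicity z : ℂ) = 0

/-- **rat.** If `PR K e` is a rational function on an interval then the exponents are integers.
Proof. On the interval (`0 ≤ u`, `v ≤ 1`, so `1 - x^k > 0` for `k ∈ K`) `PR K e` is positive and
differentiable with logarithmic derivative `∑ e k (1 - x^k)'/(1 - x^k)`, and `PR K e * B = A`. Hence
`∑_{k ∈ K} e k (1 - x^k)'/(1 - x^k) + B'/B - A'/A = 0` at the points of `(u, v)` where `A B ≠ 0`;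
cleared of denominators this is an identity of polynomials (infinitely many zeros), over `ℝ`, then
over `ℂ` (map), as in `S_resid` with `ι = Option (Option ℕ)` or `ι = ℕ ⊕ Bool`, `F k = 1 - X^k`
(`k ∈ K`), `A`, `B`, `l = e k`, `-1`, `1`.  For a primitive `m`-th root of unity `z` the multiplicity
of `z` as a zero of `1 - X^k` (`k ≥ 1`) is `1` if `m ∣ k`, else `0` (separable).  So `∑_{k ∈ K, m ∣ k} e k` is
an integer for all `m ≥ 1`; by strong downward induction on `k ∈ K` all `e k` are integers. -/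
def S_rat : Prop :=
  ∀ (K : Finset ℕ) (e : ℕ → ℝ) (A B : ℝ[X]) (u v : ℝ), 0 ∉ K → 0 ≤ u → u < v → v ≤ 1 →
    B ≠ 0 → (∀ x : ℝ, u < x → x < v → PR K e x * B.eval x = A.eval x) →
    ∀ k ∈ K, ∃ n : ℤ, e k = n

/-- **indep.** Independence of `PR K (e t)` for exponents in different classes modulo integral
exponents. Proof. Let `T₀` be the filtered set (`t₀ ∈ T₀`), induction on `T.card`.  If `T = T₀`
nothing is to be shown.  Otherwise let `s ∈ T \ T₀`. If `R s = 0` use the induction hypothesis for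
`T.erase s`. If `R s ≠ 0` let `Q = ∏_{k ∈ K} (1 - X^k)` and let `q t` be the polynomial with
`Q (PR K (e t))' = q t · PR K (e t)` on `(0,1)`, that is `q t = ∑_{k ∈ K} e t k (1 - X^k)' ∏_{j ≠ k} (1 - X^j)`.
The operator `L h = Q R_s h' - (Q R_s' + R_s q_s) h` kills `R_s PR K (e s)` and maps `R_t PR K (e t)` to
`R̃_t PR K (e t)` with the polynomial `R̃_t = Q R_s R_t' + R_s R_t q_t - (Q R_s' + R_s q_s) R_t`.  By the
induction hypothesis for `T.erase s` and `R̃` the function `h₀ = ∑_{t ∈ T₀} R_t PR K (e t)` satisfies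
`L h₀ = 0` on `(0,1)`.  Choose an open interval `(u, v) ⊆ (0,1)` without zeros of `R_s`: there
`(h₀ / (R_s PR K (e s)))' = 0`, so `h₀ = λ R_s PR K (e s)`.  For `t ∈ T₀` the function
`PR K (e t) / PR K (e t₀) = ∏ (1 - x^k)^(e t k - e t₀ k)` has integer exponents; so with a power `D` of `Q`
`h₀ · D = H · PR K (e t₀)` with a polynomial `H`. If `λ ≠ 0` then
`PR K (fun k => e s k - e t₀ k) * (λ R_s D) = H` on `(u, v)`, so by `S_rat` the numbers `e s k - e t₀ k` are
integers, a contradiction to `s ∉ T₀`.  If `λ = 0` then `H = 0` (infinitely many zeros) and `h₀ = 0`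
on `(0,1)`. -/
def S_indep : Prop :=
  ∀ (K : Finset ℕ) (ι : Type) [DecidableEq ι] (T T₀ : Finset ι) (t₀ : ι) (e : ι → ℕ → ℝ)
    (R : ι → ℝ[X]), 0 ∉ K → t₀ ∈ T → T₀ ⊆ T →
    (∀ t ∈ T, t ∈ T₀ ↔ ∀ k ∈ K, ∃ n : ℤ, e t k - e t₀ k = n) →
    (∀ x : ℝ, 0 < x → x < 1 → ∑ t ∈ T, (R t).eval x * PR K (e t) x = 0) →
    ∀ x : ℝ, 0 < x → x < 1 → ∑ t ∈ T₀, (R t).eval x * PR K (e t) x = 0

/-- **conv.** From `S_indep`. Proof. Let `K' = ⋃ t, (K t ∪ {2 k : k ∈ K t})`; as
`1 + x^k = (1 - x^(2k))/(1 - x^k)` the `t`-th product is `PR K' (e t)` on `(0,1)` with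
`e t k = [k ∈ K t] (b t k - a t k) + [k even, k/2 ∈ K t] a t (k/2)`.  Apply `S_indep` with `T = univ` in
`Option (Fin B)`, `t₀ = none`, `e none = 0`, `R none = - F`, `R (some t) = C (c t)`: on `(0,1)`
`F = ∑_{t : e t integral on K'} c t PR K' (e t)`.  Take the new coefficient `c t` if `e t` is integral, `0`
otherwise, the exponents `a = 0`, `b t k` = the integer `e t k`. -/
def S_conv : Prop :=
  ∀ (F : ℝ[X]) (B : ℕ),
    (∃ (c : Fin B → ℝ) (K : Fin B → Finset ℕ) (a b : Fin B → ℕ → ℝ), (∀ t, 0 ∉ K t) ∧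
      ∀ x : ℝ, 0 < x → x < 1 →
        F.eval x = ∑ t, c t * ∏ k ∈ K t, (1 + x ^ k) ^ (a t k) * (1 - x ^ k) ^ (b t k)) →
    ∃ (c : Fin B → ℝ) (K : Fin B → Finset ℕ) (a b : Fin B → ℕ → ℤ), (∀ t, 0 ∉ K t) ∧
      ∀ x : ℝ, 0 < x → x < 1 →
        F.eval x = ∑ t, c t * ∏ k ∈ K t, (1 + x ^ k) ^ (a t k) * (1 - x ^ k) ^ (b t k)

end Pool.Agent.H5.EG
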